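import Mathlib

set_option autoImplicit false
open Filter Topology Real MeasureTheory Set intervalIntegral

namespace Pool.Agent.H.MP_0234e1_an

/-- Integration by parts identity. -/
lemma ibp {𝕜 : Type*} [RCLike 𝕜] {ι : Type*} [Fintype ι] [DecidableEq ι] (v : ι → 𝕜) :
    (∑ j, v j) * ∫ t in (0:ℝ)..1, ∏ j, (1 - (t : 𝕜) * v j) =
      1 - ∏ j, (1 - v j) - ∑ j, v j ^ 2 * ∫ t in (0:ℝ)..1,
        (t : 𝕜) * ∏ i ∈ Finset.univ.erase j, (1 - (t : 𝕜) * v i) := by
  have hd : ∀ t : ℝ, HasDerivAt (fun t : ℝ => ∏ j, (1 - (t : 𝕜) * v j))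
      (∑ j, (∏ i ∈ Finset.univ.erase j, (1 - (t : 𝕜) * v i)) • (-v j)) t := by
    intro t
    apply HasDerivAt.fun_finsetProd
    intro j _
    have h1 : HasDerivAt (fun t : ℝ => (t : 𝕜)) 1 t := by
      simpa using (RCLike.ofRealCLM (K := 𝕜)).hasDerivAt (x := t)
    simpa using (h1.mul_const (v j)).const_sub 1
  have hc : Continuous fun t : ℝ => (t : 𝕜) := RCLike.continuous_ofReal
  have h2 := integral_eq_sub_of_hasDerivAt (a := 0) (b := 1) (fun t _ => hd t)
    (Continuous.intervalIntegrable (by fun_prop) _ _)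
  have h3 : ∀ t : ℝ, (∑ j, (∏ i ∈ Finset.univ.erase j, (1 - (t : 𝕜) * v i)) • (-v j)) =
      -((∑ j, v j) * ∏ j, (1 - (t : 𝕜) * v j)) -
        ∑ j, v j ^ 2 * ((t : 𝕜) * ∏ i ∈ Finset.univ.erase j, (1 - (t : 𝕜) * v i)) := by
    intro t
    rw [Finset.sum_mul, ← Finset.sum_neg_distrib, ← Finset.sum_sub_distrib]
    refine Finset.sum_congr rfl fun j _ => ?_
    rw [← Finset.mul_prod_erase _ _ (Finset.mem_univ j), smul_eq_mul]
    ring
  simp only [h3] at h2
  rw [intervalIntegral.integral_sub (Continuous.intervalIntegrable (by fun_prop) _ _)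
    (Continuous.intervalIntegrable (by fun_prop) _ _), intervalIntegral.integral_neg,
    intervalIntegral.integral_const_mul, intervalIntegral.integral_finsetSum
      (fun j _ => Continuous.intervalIntegrable (by fun_prop) _ _)] at h2
  simp only [intervalIntegral.integral_const_mul, RCLike.ofReal_one, one_mul, RCLike.ofReal_zero,
    zero_mul, sub_zero, Finset.prod_const_one] at h2
  linear_combination -h2

lemma int_exp {l : ℝ} (hl : 0 < l) : ∫ t in (0:ℝ)..1, t * exp (-(l * t)) ≤ 1 / l ^ 2 := by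
  have hd : ∀ t : ℝ, HasDerivAt (fun t : ℝ => -(t / l + 1 / l ^ 2) * exp (-(l * t)))
      (t * exp (-(l * t))) t := by
    intro t
    have h1 := ((((hasDerivAt_id t).div_const l).add_const (1 / l ^ 2)).neg.mul
      ((hasDerivAt_id t).const_mul l).neg.exp)
    refine HasDerivAt.congr_deriv h1 ?_
    simp only [id, Pi.neg_apply]
    field_simp
    ring
  rw [integral_eq_sub_of_hasDerivAt (fun t _ => hd t) (Continuous.intervalIntegrable (by fun_prop) _ _)]
  have : 0 ≤ (1 / l + 1 / l ^ 2) * exp (-(l * 1)) := by positivity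
  simp only [mul_zero, neg_zero, exp_zero, zero_div, zero_add, mul_one] at this ⊢
  linarith

lemma core {ι : Type*} [Fintype ι] [DecidableEq ι] (v : ι → ℂ) {κ : ℝ} (hκ1 : 1 < κ)
    (hκ : κ ≤ Fintype.card ι - ∑ j, ‖1 - v j‖) :
    κ / (Fintype.card ι + 1) - 4 * (∑ j, ‖1 - v j‖) / (κ - 1) ^ 2 ≤
      ‖(∑ j, v j) * ∫ t in (0:ℝ)..1, ∏ j, (1 - (t : ℂ) * v j)‖ := by
  set y : ι → ℝ := fun j => ‖1 - v j‖ with hy
  have hy0 : ∀ j, 0 ≤ y j := fun j => norm_nonneg _
  have h1 := ibp (𝕜 := ℝ) (fun j => 1 - y j)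
  have h2 := ibp (𝕜 := ℂ) v
  simp only [RCLike.ofReal_real_eq_id, id, sub_sub_cancel] at h1
  have hs : ∑ j, (1 - y j) = Fintype.card ι - ∑ j, y j := by
    simp [Finset.sum_sub_distrib]
  have hf : ∀ t ∈ Icc (0:ℝ) 1, ∀ i, ‖1 - (t : ℂ) * v i‖ ≤ 1 - t * (1 - y i) := by
    intro t ht i
    have : 1 - (t : ℂ) * v i = ((1 - t : ℝ) : ℂ) + t * (1 - v i) := by push_cast; ring
    rw [this]
    refine (norm_add_le _ _).trans ?_
    rw [norm_mul, Complex.norm_real, Complex.norm_real, Real.norm_of_nonneg ht.1,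
      Real.norm_of_nonneg (by linarith [ht.2])]
    simp only [hy]
    linarith
  set J : ι → ℝ := fun j => ∫ t in (0:ℝ)..1, t * ∏ i ∈ Finset.univ.erase j, (1 - t * (1 - y i))
    with hJ
  have hJ1 : ∀ j, ‖∫ t in (0:ℝ)..1, (t : ℂ) * ∏ i ∈ Finset.univ.erase j, (1 - (t : ℂ) * v i)‖
      ≤ J j := by
    intro j
    refine intervalIntegral.norm_integral_le_of_norm_le zero_le_one
      (Eventually.of_forall fun t ht => ?_) (Continuous.intervalIntegrable (by fun_prop) _ _)
    rw [norm_mul, Complex.norm_real, Real.norm_of_nonneg ht.1.le, norm_prod]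
    exact mul_le_mul_of_nonneg_left (Finset.prod_le_prod (fun _ _ => norm_nonneg _)
      fun i _ => hf t ⟨ht.1.le, ht.2⟩ i) ht.1.le
  have hJ2 : ∀ j, J j ≤ 1 / (κ - 1) ^ 2 := by
    intro j
    refine le_trans ?_ (int_exp (by linarith : 0 < κ - 1))
    refine intervalIntegral.integral_mono_on zero_le_one
      (Continuous.intervalIntegrable (by fun_prop) _ _)
      (Continuous.intervalIntegrable (by fun_prop) _ _) fun t ht => ?_
    refine mul_le_mul_of_nonneg_left ?_ ht.1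
    refine (Finset.prod_le_prod (fun i _ => (norm_nonneg _).trans (hf t ht i))
      (g := fun i => exp (-(t * (1 - y i)))) fun i _ => by
        linarith [add_one_le_exp (-(t * (1 - y i)))]).trans ?_
    rw [← exp_sum, exp_le_exp, Finset.sum_neg_distrib, ← Finset.mul_sum, neg_le_neg_iff, mul_comm]
    refine mul_le_mul_of_nonneg_left ?_ ht.1
    have := Finset.add_sum_erase Finset.univ (fun i => 1 - y i) (Finset.mem_univ j)
    linarith [hy0 j]
  have hI : 1 / ((Fintype.card ι : ℝ) + 1) ≤ ∫ t in (0:ℝ)..1, ∏ j, (1 - t * (1 - y j)) := by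
    have e : ∫ t in (0:ℝ)..1, (1 - t) ^ Fintype.card ι = 1 / ((Fintype.card ι : ℝ) + 1) := by
      rw [intervalIntegral.integral_comp_sub_left (fun t : ℝ => t ^ Fintype.card ι) 1]
      simp
    rw [← e]
    refine intervalIntegral.integral_mono_on zero_le_one
      (Continuous.intervalIntegrable (by fun_prop) _ _)
      (Continuous.intervalIntegrable (by fun_prop) _ _) fun t ht => ?_
    rw [← Finset.card_univ, ← Finset.prod_const]
    exact Finset.prod_le_prod (fun _ _ => by linarith [ht.2]) fun i _ => by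
      nlinarith [mul_nonneg ht.1 (hy0 i)]
  have h3 : ‖∑ j, v j ^ 2 * ∫ t in (0:ℝ)..1,
      (t : ℂ) * ∏ i ∈ Finset.univ.erase j, (1 - (t : ℂ) * v i)‖ ≤
      ∑ j, (1 - y j) ^ 2 * J j + 4 * (∑ j, y j) / (κ - 1) ^ 2 := by
    refine (norm_sum_le _ _).trans ?_
    rw [mul_div_assoc, Finset.sum_div, Finset.mul_sum, ← Finset.sum_add_distrib]
    refine Finset.sum_le_sum fun j _ => ?_
    have a1 : ‖v j‖ ≤ 1 + y j := by
      have := norm_sub_le (1 : ℂ) (1 - v j)
      simpa using this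
    have a2 : ‖v j‖ ^ 2 ≤ (1 + y j) ^ 2 := pow_le_pow_left₀ (norm_nonneg _) a1 2
    have a3 := (norm_nonneg _).trans (hJ1 j)
    have a4 := mul_le_mul_of_nonneg_left (hJ2 j) (hy0 j)
    rw [norm_mul, norm_pow]
    calc _ ≤ (1 + y j) ^ 2 * J j := mul_le_mul a2 (hJ1 j) (norm_nonneg _) (sq_nonneg _)
      _ = (1 - y j) ^ 2 * J j + 4 * (y j * J j) := by ring
      _ ≤ _ := by
        rw [mul_one_div] at a4
        linarith
  have h4 : ‖∏ j, (1 - v j)‖ = ∏ j, y j := norm_prod _ _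
  have h5 : κ / (Fintype.card ι + 1) ≤
      (∑ j, (1 - y j)) * ∫ t in (0:ℝ)..1, ∏ j, (1 - t * (1 - y j)) := by
    rw [hs, div_eq_mul_one_div]
    exact mul_le_mul hκ hI (by positivity) (by linarith)
  erw [h2]
  have h6 := norm_sub_norm_le (1 - ∏ j, (1 - v j)) (∑ j, v j ^ 2 * ∫ t in (0:ℝ)..1,
      (t : ℂ) * ∏ i ∈ Finset.univ.erase j, (1 - (t : ℂ) * v i))
  have h7 := norm_sub_norm_le (1 : ℂ) (∏ j, (1 - v j))
  rw [norm_one, h4] at h7
  refine le_trans ?_ h6
  linarith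

end Pool.Agent.H.MP_0234e1_an
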