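import Mathlib

set_option autoImplicit false
open Polynomial
open scoped InnerProductSpace ComplexConjugate

namespace Pool.Agent.H.MP_0234e1_an

/-- Weyl's trace-norm bound for the eigenvalues of a sum of rank-one matrices. -/
lemma weyl {K : Type*} [Fintype K] : ∀ (n : ℕ) (x y : K → EuclideanSpace ℂ (Fin n))
    (w : Fin n → ℂ),
    (Matrix.of fun i j => ∑ k, x k i * conj (y k j)).charpoly = ∏ j, (X - C (w j)) →
    ∑ j, ‖w j‖ ≤ ∑ k, ‖x k‖ * ‖y k‖ := by
  intro n
  induction n with
  | zero => intro x y w _; simp only [Finset.univ_eq_empty, Finset.sum_empty]; positivity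
  | succ n ih =>
    intro x y w h
    obtain ⟨T, hT⟩ : ∃ T : EuclideanSpace ℂ (Fin (n+1)) →ₗ[ℂ] EuclideanSpace ℂ (Fin (n+1)),
        ∀ u, T u = ∑ k, ⟪y k, u⟫_ℂ • x k :=
      ⟨∑ k, (innerₛₗ ℂ (y k)).smulRight (x k), fun u => by simp [LinearMap.sum_apply]⟩
    have hM : ∀ b : OrthonormalBasis (Fin (n+1)) ℂ (EuclideanSpace ℂ (Fin (n+1))),
        LinearMap.toMatrix b.toBasis b.toBasis T =
          Matrix.of fun i j => ∑ k, b.repr (x k) i * conj (b.repr (y k) j) := by
      intro b
      ext i j
      rw [LinearMap.toMatrix_apply, hT]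
      simp [b.repr_apply_apply, inner_sum, mul_comm]
    have hc : T.charpoly = ∏ j, (X - C (w j)) := by
      rw [← LinearMap.charpoly_toMatrix T (EuclideanSpace.basisFun _ _).toBasis, hM]
      simpa using h
    have he : Module.End.HasEigenvalue T (w 0) := by
      rw [Module.End.hasEigenvalue_iff_isRoot_charpoly, hc, IsRoot, eval_prod]
      exact Finset.prod_eq_zero (Finset.mem_univ 0) (by simp)
    obtain ⟨v, hv⟩ := he.exists_hasEigenvector
    have hv0 : ‖v‖ ≠ 0 := norm_ne_zero_iff.2 hv.2
    obtain ⟨b, hb⟩ := Orthonormal.exists_orthonormalBasis_extension_of_card_eq (𝕜 := ℂ)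
      (ι := Fin (n+1)) (E := EuclideanSpace ℂ (Fin (n+1))) (by simp)
      (v := fun _ => ((‖v‖⁻¹ : ℝ) : ℂ) • v) (s := {0}) (by
        constructor
        · intro i
          simp [norm_smul, hv0]
        · intro i j hij
          exact absurd (Subsingleton.elim i j) hij)
    have hb0 : T (b 0) = w 0 • b 0 := by
      rw [hb 0 rfl, map_smul, hv.apply_eq_smul, smul_comm]
    have hcol : ∀ i, LinearMap.toMatrix b.toBasis b.toBasis T i 0 = if i = 0 then w 0 else 0 := by
      intro i
      rw [LinearMap.toMatrix_apply]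
      simp [hb0, EuclideanSpace.single_apply]
    rw [← LinearMap.charpoly_toMatrix T b.toBasis] at hc
    rw [hM] at hc hcol
    set x' : K → EuclideanSpace ℂ (Fin n) := fun k => WithLp.toLp 2 fun i => b.repr (x k) i.succ
      with hx'
    set y' : K → EuclideanSpace ℂ (Fin n) := fun k => WithLp.toLp 2 fun i => b.repr (y k) i.succ
      with hy'
    have h2 := ih x' y' (fun j => w j.succ) (by
      rw [Fin.prod_univ_succ, Matrix.charpoly, Matrix.det_succ_column_zero, Fin.sum_univ_succ,
        Finset.sum_eq_zero (fun i _ => by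
          rw [Matrix.charmatrix_apply_ne _ _ _ (Fin.succ_ne_zero i), hcol, if_neg (Fin.succ_ne_zero i)]
          simp), Matrix.charmatrix_apply_eq, hcol] at hc
      simp only [Fin.val_zero, pow_zero, one_mul, if_true, add_zero] at hc
      rw [← mul_left_cancel₀ (X_sub_C_ne_zero _) hc, Matrix.charpoly]
      congr 1
      ext1 i j
      by_cases hij : i = j
      · subst hij
        simp [hx', hy']
      · simp [hx', hy', hij])
    have h3 : ‖w 0‖ ≤ ∑ k, ‖b.repr (x k) 0‖ * ‖b.repr (y k) 0‖ := by
      have := hcol 0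
      simp only [Matrix.of_apply, if_true] at this
      rw [← this]
      exact (norm_sum_le _ _).trans (by simp)
    rw [Fin.sum_univ_succ]
    refine (add_le_add h3 h2).trans ?_
    rw [← Finset.sum_add_distrib]
    refine Finset.sum_le_sum fun k _ => ?_
    have e : ∀ u : EuclideanSpace ℂ (Fin (n+1)), ‖u‖ ^ 2 = ‖b.repr u 0‖ ^ 2 +
        ‖(WithLp.toLp 2 fun i : Fin n => b.repr u i.succ : EuclideanSpace ℂ (Fin n))‖ ^ 2 := by
      intro u
      rw [← b.repr.norm_map u, EuclideanSpace.norm_sq_eq, EuclideanSpace.norm_sq_eq,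
        Fin.sum_univ_succ]
    refine (abs_le_of_sq_le_sq' ?_ (by positivity)).2
    rw [mul_pow, e (x k), e (y k)]
    nlinarith [sq_nonneg (‖b.repr (x k) 0‖ * ‖y' k‖ - ‖b.repr (y k) 0‖ * ‖x' k‖)]

/-- The de Bruijn Springer type bound for the first absolute moment of the critical points. -/
lemma dbs {N : ℕ} (z : Fin (N + 1) → ℂ) (w : Fin N → ℂ) (c : ℂ)
    (h : derivative (∏ k, (X - C (z k))) = C ((N : ℂ) + 1) * ∏ j, (X - C (w j))) :
    ∑ j, ‖w j - c‖ ≤ ∑ k, ‖z k - c‖ := by
  have hn : ((N : ℂ) + 1) ≠ 0 := by exact_mod_cast N.succ_ne_zero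
  have h1 := weyl (N + 1)
    (fun k => WithLp.toLp 2 fun i => (if i = k then 1 else 0) - 1 / ((N : ℂ) + 1))
    (fun k => EuclideanSpace.single k (conj (z k - c))) (Fin.cons 0 fun j => w j - c) (by
      refine eq_of_infinite_eval_eq _ _ ((Set.finite_range fun k => z k - c).infinite_compl.mono
        fun t ht => ?_)
      have ht' : ∀ k, t - (z k - c) ≠ 0 := fun k hk => ht ⟨k, (sub_eq_zero.1 hk).symm⟩
      have e : Matrix.scalar (Fin (N + 1)) t - (Matrix.of fun i j => ∑ k,
          (WithLp.toLp 2 fun i => (if i = k then 1 else 0) - 1 / ((N : ℂ) + 1) :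
            EuclideanSpace ℂ (Fin (N + 1))) i *
            conj ((EuclideanSpace.single k (conj (z k - c)) : EuclideanSpace ℂ (Fin (N + 1))) j)) =
          (1 + Matrix.replicateCol Unit (fun _ => 1 / ((N : ℂ) + 1)) *
            Matrix.replicateRow Unit (fun j => (z j - c) / (t - (z j - c)))) *
          Matrix.diagonal fun j => t - (z j - c) := by
        ext i j
        have := ht' j
        by_cases hij : i = j
        · subst hij
          simp [Matrix.mul_apply, apply_ite, Matrix.diagonal_apply, Matrix.one_apply]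
          field_simp
          ring
        · simp [Matrix.mul_apply, apply_ite, hij, Matrix.diagonal_apply, Matrix.one_apply]
          field_simp
      have h2 := congrArg (eval (t + c)) h
      rw [derivative_prod_finset] at h2
      simp only [eval_finsetSum, eval_mul, eval_prod, eval_sub, eval_X, eval_C, derivative_sub,
        derivative_X, derivative_C, sub_zero, mul_one] at h2
      simp only [Set.mem_setOf_eq]
      rw [Matrix.eval_charpoly, e, Matrix.det_mul, Matrix.det_one_add_replicateCol_mul_replicateRow,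
        Matrix.det_diagonal, Fin.prod_univ_succ (fun j => X - C _)]
      simp only [eval_mul, eval_prod, eval_sub, eval_X, eval_C, Fin.cons_zero, Fin.cons_succ,
        sub_zero, dotProduct]
      have e2 : ∀ a : ℂ, t - (a - c) = t + c - a := fun a => by ring
      simp only [e2] at ht' ⊢
      apply mul_left_cancel₀ hn
      rw [mul_left_comm _ t, ← h2, ← mul_assoc, mul_add, Finset.mul_sum, mul_one, Finset.mul_sum]
      rw [show ((N : ℂ) + 1) = ∑ _k : Fin (N + 1), (1 : ℂ) by simp, ← Finset.sum_add_distrib,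
        Finset.sum_mul]
      refine Finset.sum_congr rfl fun k _ => ?_
      rw [← Finset.mul_prod_erase _ _ (Finset.mem_univ k)]
      have := ht' k
      simp only [Finset.sum_const, Finset.card_univ, Fintype.card_fin, nsmul_eq_mul, mul_one,
        Nat.cast_add, Nat.cast_one]
      field_simp
      ring)
  rw [Fin.sum_univ_succ] at h1
  simp only [Fin.cons_zero, norm_zero, zero_add, Fin.cons_succ, EuclideanSpace.norm_single,
    Complex.norm_conj] at h1
  refine h1.trans (Finset.sum_le_sum fun k _ => mul_le_of_le_one_left (norm_nonneg _) ?_)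
  refine (abs_le_of_sq_le_sq' ?_ zero_le_one).2
  have e : ∀ i : Fin (N + 1), ‖(if i = k then 1 else 0) - 1 / ((N : ℂ) + 1)‖ ^ 2 =
      (if i = k then 1 - 2 / ((N : ℝ) + 1) else 0) + 1 / ((N : ℝ) + 1) ^ 2 := by
    intro i
    rw [show (if i = k then 1 else 0) - 1 / ((N : ℂ) + 1) =
      (((if i = k then 1 else 0) - 1 / ((N : ℝ) + 1) : ℝ) : ℂ) by split_ifs <;> simp,
      Complex.norm_real, Real.norm_eq_abs, sq_abs]
    split_ifs <;> field_simp <;> ring
  rw [EuclideanSpace.norm_sq_eq]
  simp only [e, Finset.sum_add_distrib, Finset.sum_ite_eq', Finset.mem_univ, if_true,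
    Finset.sum_const, Finset.card_univ, Fintype.card_fin, nsmul_eq_mul, Nat.cast_add, Nat.cast_one]
  have : (0 : ℝ) < N + 1 := by positivity
  have e3 : ((N : ℝ) + 1) * (1 / ((N : ℝ) + 1) ^ 2) = 1 / (N + 1) := by field_simp
  have e4 : 2 / ((N : ℝ) + 1) = 2 * (1 / (N + 1)) := by ring
  have : 0 < 1 / ((N : ℝ) + 1) := by positivity
  linarith

end Pool.Agent.H.MP_0234e1_an
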