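import Pool.Agent.H.MP_0234e1_an.A
import Pool.Agent.H.MP_0234e1_an.B

set_option autoImplicit false
open Polynomial Real

namespace Pool.Agent.H.MP_0234e1_an

lemma numeric {η N : ℝ} (h0 : 0 < η) (h1 : η < 1) (hN : 256 / η ^ 3 ≤ N) :
    2 < η * N ∧
      exp (-((N + 1) * η)) < (η * N - 1) / (N + 1) - 4 * (N + 1) / (η * N - 1 - 1) ^ 2 := by
  rw [div_le_iff₀ (by positivity)] at hN
  have hN0 : 0 < N := by
    by_contra h
    nlinarith [pow_pos h0 3]
  have a1 : N * η ^ 3 ≤ N * η ^ 2 := by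
    have := mul_le_mul_of_nonneg_left h1.le (by positivity : 0 ≤ N * η ^ 2)
    nlinarith
  have a2 : N * η ^ 2 ≤ N * η := by
    have := mul_le_mul_of_nonneg_left h1.le (by positivity : 0 ≤ N * η)
    nlinarith
  have a3 : N * η ≤ N := by nlinarith
  refine ⟨by linarith, ?_⟩
  have b1 : exp (-((N + 1) * η)) < η / 4 := by
    rw [exp_neg, inv_lt_comm₀ (exp_pos _) (by positivity), inv_div, div_lt_iff₀ h0]
    have := add_one_le_exp ((N + 1) * η)
    nlinarith
  have b2 : 3 * η / 8 ≤ (η * N - 1) / (N + 1) := by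
    rw [le_div_iff₀ (by positivity)]
    nlinarith
  have b3 : 4 * (N + 1) / (η * N - 1 - 1) ^ 2 ≤ η / 8 := by
    have c1 : (η * N / 2) ^ 2 ≤ (η * N - 1 - 1) ^ 2 :=
      pow_le_pow_left₀ (by positivity) (by linarith) 2
    rw [div_le_iff₀ (lt_of_lt_of_le (by positivity) c1)]
    have c2 := mul_le_mul_of_nonneg_left c1 h0.le
    have c3 := mul_le_mul_of_nonneg_left hN hN0.le
    nlinarith
  linarith

lemma key {N : ℕ} (z : Fin (N + 1) → ℂ) (w : Fin N → ℂ) (c : ℂ)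
    (h : derivative (∏ k, (X - C (z k))) = C ((N : ℂ) + 1) * ∏ j, (X - C (w j)))
    {η H : ℝ} (h0 : 0 < η) (h1 : η < 1) (hN : 256 / η ^ 3 ≤ N) (hH : 0 < H)
    (hS : ∑ k, ‖z k - c‖ ≤ (N + 1) * (1 - η) * H) (k₀ : Fin (N + 1)) :
    ∃ j, ‖z k₀ - w j‖ < H := by
  by_contra hcon
  push Not at hcon
  obtain ⟨n1, n2⟩ := numeric h0 h1 hN
  have hd : ∀ j, z k₀ - w j ≠ 0 := fun j => norm_pos_iff.1 (hH.trans_le (hcon j))
  set L := c - z k₀ with hL
  set v : Fin N → ℂ := fun j => -L / (z k₀ - w j) with hv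
  have hy : ∑ j, ‖1 - v j‖ ≤ (N + 1) * (1 - η) := by
    have : ∑ j, ‖1 - v j‖ ≤ ∑ j, ‖w j - c‖ / H := Finset.sum_le_sum fun j _ => by
      have : 1 - v j = -(w j - c) / (z k₀ - w j) := by
        have := hd j
        simp only [hv, hL]
        field_simp
        ring
      rw [this, norm_div, norm_neg]
      exact div_le_div_of_nonneg_left (norm_nonneg _) hH (hcon j)
    rw [← Finset.sum_div] at this
    exact this.trans ((div_le_iff₀ hH).2 ((dbs z w c h).trans hS))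
  have hc := core v (κ := η * N - 1) (by linarith) (by rw [Fintype.card_fin]; nlinarith)
  rw [Fintype.card_fin] at hc
  have hN0 : (0 : ℝ) ≤ N := N.cast_nonneg
  have hc2 : 4 * (∑ j, ‖1 - v j‖) / (η * N - 1 - 1) ^ 2 ≤ 4 * (N + 1) / (η * N - 1 - 1) ^ 2 :=
    div_le_div_of_nonneg_right (by nlinarith) (sq_nonneg _)
  set I := ∫ t in (0:ℝ)..1, ∏ j, (1 - (t : ℂ) * v j) with hI
  have hF : ∏ k, (c - z k) = L * (N + 1) * (∏ j, (z k₀ - w j)) * I := by
    have hD : ∀ t : ℝ, HasDerivAt (fun t : ℝ => (∏ k, (X - C (z k))).eval (z k₀ + t * L))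
        (L * (N + 1) * (∏ j, (z k₀ - w j)) * ∏ j, (1 - (t : ℂ) * v j)) t := by
      intro t
      have a1 : HasDerivAt (fun s : ℂ => z k₀ + s * L) L t := by
        simpa using ((hasDerivAt_id (t : ℂ)).mul_const L).const_add (z k₀)
      have a2 := (((∏ k, (X - C (z k))).hasDerivAt (z k₀ + t * L)).comp (t : ℂ) a1).comp_ofReal
      refine HasDerivAt.congr_deriv a2 ?_
      rw [h, mul_assoc _ (∏ j, (z k₀ - w j)), ← Finset.prod_mul_distrib]
      simp only [eval_mul, eval_C, eval_prod, eval_sub, eval_X]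
      rw [Finset.prod_congr rfl (g := fun j => (z k₀ - w j) * (1 - (t : ℂ) * v j)) fun j _ => by
        have := hd j
        simp only [hv]
        field_simp
        ring]
      ring
    have := intervalIntegral.integral_eq_sub_of_hasDerivAt (a := 0) (b := 1) (fun t _ => hD t)
      (Continuous.intervalIntegrable (by fun_prop) _ _)
    rw [intervalIntegral.integral_const_mul] at this
    rw [this]
    simp only [eval_prod, eval_sub, eval_X, eval_C, Complex.ofReal_one, one_mul,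
      Complex.ofReal_zero, zero_mul, add_zero, hL, add_sub_cancel]
    rw [Finset.prod_eq_zero (f := fun k => z k₀ - z k) (Finset.mem_univ k₀) (sub_self _), sub_zero]
  have u1 : ‖∏ k, (c - z k)‖ ≤ H ^ (N + 1) * exp (-((N + 1) * η)) := by
    rw [norm_prod]
    refine (Finset.prod_le_prod (fun _ _ => norm_nonneg _)
      (g := fun k => H * exp (‖z k - c‖ / H - 1)) fun k _ => ?_).trans ?_
    · have := mul_le_mul_of_nonneg_left (add_one_le_exp (‖z k - c‖ / H - 1)) hH.le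
      rw [sub_add_cancel, mul_div_cancel₀ _ hH.ne'] at this
      rwa [norm_sub_rev]
    · rw [Finset.prod_mul_distrib, ← exp_sum, Finset.prod_const, Finset.card_univ,
        Fintype.card_fin, Finset.sum_sub_distrib, ← Finset.sum_div]
      have := (div_le_iff₀ hH).2 hS
      gcongr
      simp only [Finset.sum_const, Finset.card_univ, Fintype.card_fin, nsmul_eq_mul, mul_one,
        Nat.cast_add, Nat.cast_one]
      linarith
  have u2 : H ^ N ≤ ‖∏ j, (z k₀ - w j)‖ := by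
    rw [norm_prod]
    have := Finset.prod_le_prod (s := Finset.univ) (fun _ _ => hH.le) fun j _ => hcon j
    simpa using this
  have u3 : H * ‖∑ j, v j‖ ≤ ‖L‖ * (N + 1) := by
    have : ‖∑ j, v j‖ ≤ ∑ _j : Fin N, ‖L‖ / H :=
      (norm_sum_le _ _).trans (Finset.sum_le_sum fun j _ => by
        simp only [hv, norm_div, norm_neg]
        exact div_le_div_of_nonneg_left (norm_nonneg _) hH (hcon j))
    rw [Finset.sum_const, Finset.card_univ, Fintype.card_fin, nsmul_eq_mul, ← mul_div_assoc,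
      le_div_iff₀ hH] at this
    nlinarith [norm_nonneg L]
  have u4 : ‖(N : ℂ) + 1‖ = N + 1 := by exact_mod_cast Complex.norm_natCast (N + 1)
  rw [hF, norm_mul, norm_mul, norm_mul, u4] at u1
  rw [norm_mul] at hc
  have u5 : H * ‖∑ j, v j‖ * H ^ N * ‖I‖ ≤ ‖L‖ * (N + 1) * ‖∏ j, (z k₀ - w j)‖ * ‖I‖ := by
    gcongr
  have u6 : H ^ (N + 1) * exp (-((N + 1) * η)) < H ^ (N + 1) * (‖∑ j, v j‖ * ‖I‖) :=
    mul_lt_mul_of_pos_left (by linarith) (by positivity)
  rw [pow_succ] at u1 u6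
  nlinarith

lemma exists_fin (s : Multiset ℂ) {n : ℕ} (h : s.card = n) :
    ∃ z : Fin n → ℂ, Finset.univ.val.map z = s := by
  obtain ⟨l, rfl⟩ : ∃ l : List ℂ, (l : Multiset ℂ) = s := ⟨s.toList, s.coe_toList⟩
  obtain rfl : l.length = n := h
  exact ⟨l.get, by rw [Fin.univ_val_map, List.ofFn_get]⟩

lemma factor (F : ℂ[X]) {N : ℕ} (hF : F.natDegree = N + 1) :
    ∃ (z : Fin (N + 1) → ℂ) (w : Fin N → ℂ), Finset.univ.val.map z = F.roots ∧
      Finset.univ.val.map w = F.derivative.roots ∧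
      derivative (∏ k, (X - C (z k))) = C ((N : ℂ) + 1) * ∏ j, (X - C (w j)) := by
  obtain ⟨z, hz⟩ := exists_fin F.roots (IsAlgClosed.card_roots_eq_natDegree.trans hF)
  obtain ⟨w, hw⟩ := exists_fin F.derivative.roots (n := N)
    (by rw [IsAlgClosed.card_roots_eq_natDegree, natDegree_derivative, hF]; rfl)
  refine ⟨z, w, hz, hw, ?_⟩
  have h1 := C_leadingCoeff_mul_prod_multiset_X_sub_C (p := F) IsAlgClosed.card_roots_eq_natDegree
  have h2 := C_leadingCoeff_mul_prod_multiset_X_sub_C (p := F.derivative)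
    IsAlgClosed.card_roots_eq_natDegree
  rw [← hz, Multiset.map_map] at h1
  rw [← hw, Multiset.map_map, leadingCoeff_derivative, hF] at h2
  have h0 : F.leadingCoeff ≠ 0 := by
    rw [leadingCoeff_ne_zero]
    rintro rfl
    simp at hF
  apply mul_left_cancel₀ (C_ne_zero.2 h0)
  rw [← derivative_C_mul]
  erw [h1]
  rw [← h2, ← mul_assoc, ← C_mul]
  push_cast
  rfl

/-- The bound with constant `K` in degree `n` for the exponent one. -/
def Bd (n : ℕ) (K : ℝ) : Prop :=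
  ∀ F : ℂ[X], F.natDegree = n → 2 ≤ n → ∀ c : ℂ, ∀ a ∈ F.roots, ∃ b ∈ F.derivative.roots,
    ‖a - b‖ ≤ K * ((1 / (n : ℝ)) * (F.roots.map fun x => ‖x - c‖).sum)

lemma bd_of {n : ℕ} {K : ℝ} (h : ∀ N : ℕ, n = N + 2 → ∀ (z : Fin (N + 1 + 1) → ℂ)
    (w : Fin (N + 1) → ℂ) (c : ℂ), derivative (∏ k, (X - C (z k))) =
      C (((N + 1 : ℕ) : ℂ) + 1) * ∏ j, (X - C (w j)) → ∀ k₀, ∃ j, ‖z k₀ - w j‖ ≤
        K * ((1 / (n : ℝ)) * ∑ k, ‖z k - c‖)) : Bd n K := by
  intro F hF hn c a ha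
  obtain ⟨N, rfl⟩ := Nat.exists_eq_add_of_le' hn
  obtain ⟨z, w, hz, hw, hd⟩ := factor F (N := N + 1) hF
  rw [← hz] at ha ⊢
  obtain ⟨k₀, -, rfl⟩ := Multiset.mem_map.1 ha
  obtain ⟨j, hj⟩ := h N rfl z w c hd k₀
  refine ⟨w j, by rw [← hw]; exact Multiset.mem_map_of_mem _ (Finset.mem_univ_val j), ?_⟩
  rw [Multiset.map_map]
  exact hj

lemma crude {N : ℕ} (z : Fin (N + 1) → ℂ) (w : Fin N → ℂ) (c : ℂ)
    (h : derivative (∏ k, (X - C (z k))) = C ((N : ℂ) + 1) * ∏ j, (X - C (w j))) (k : Fin (N + 1))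
    (j : Fin N) : ‖z k - w j‖ ≤ 2 * ∑ k, ‖z k - c‖ := by
  have h1 := Finset.single_le_sum (f := fun k => ‖z k - c‖) (fun _ _ => norm_nonneg _)
    (Finset.mem_univ k)
  have h2 := (Finset.single_le_sum (f := fun j => ‖w j - c‖) (fun _ _ => norm_nonneg _)
    (Finset.mem_univ j)).trans (dbs z w c h)
  have h3 := norm_sub_le (z k - c) (w j - c)
  rw [sub_sub_sub_cancel_right] at h3
  linarith

lemma bd_crude (n : ℕ) : Bd n (2 * n + 1) := by
  refine bd_of fun N hN z w c h k₀ => ⟨0, (crude z w c h k₀ 0).trans ?_⟩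
  have hn : (0 : ℝ) < n := by rw [hN]; positivity
  have : 0 ≤ ∑ k, ‖z k - c‖ := by positivity
  rw [← mul_assoc]
  refine mul_le_mul_of_nonneg_right ?_ this
  rw [mul_one_div, le_div_iff₀ hn]
  linarith

lemma bd_sharp {ε : ℝ} (hε : 0 < ε) : ∀ᶠ n in Filter.atTop, Bd n (1 + ε) := by
  filter_upwards [tendsto_natCast_atTop_atTop (R := ℝ).eventually_ge_atTop
    (256 / (ε / (1 + ε)) ^ 3 + 1)] with n hn
  refine bd_of fun N hN z w c h k₀ => ?_
  rcases (show 0 ≤ ∑ k, ‖z k - c‖ by positivity).eq_or_lt with h0 | h0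
  · exact ⟨0, by simpa [← h0] using crude z w c h k₀ 0⟩
  subst hN
  obtain ⟨j, hj⟩ := key z w c h (η := ε / (1 + ε))
    (H := (1 + ε) * ((1 / ((N + 2 : ℕ) : ℝ)) * ∑ k, ‖z k - c‖)) (by positivity)
    ((div_lt_one (by positivity)).2 (by linarith)) (by push_cast at hn ⊢; linarith)
    (by positivity) (le_of_eq (by push_cast; field_simp; ring)) k₀
  exact ⟨j, hj.le⟩

lemma bd_main : ∃ K : ℕ → ℝ, (∀ n, 1 ≤ K n) ∧ Filter.Tendsto K Filter.atTop (nhds 1) ∧
    ∀ n, Bd n (K n) := by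
  have hne : ∀ n : ℕ, {K | 1 ≤ K ∧ Bd n K}.Nonempty := fun n =>
    ⟨2 * n + 1, by linarith [n.cast_nonneg (α := ℝ)], bd_crude n⟩
  have h1 : ∀ n : ℕ, 1 ≤ sInf {K | 1 ≤ K ∧ Bd n K} := fun n => le_csInf (hne n) fun _ h => h.1
  refine ⟨fun n => sInf {K | 1 ≤ K ∧ Bd n K} + 1 / ((n : ℝ) + 1), fun n => ?_, ?_, fun n => ?_⟩
  · have : 0 < 1 / ((n : ℝ) + 1) := by positivity
    linarith [h1 n]
  · have : Filter.Tendsto (fun n : ℕ => sInf {K | 1 ≤ K ∧ Bd n K}) Filter.atTop (nhds 1) := by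
      refine tendsto_order.2 ⟨fun a ha => .of_forall fun n => ha.trans_le (h1 n), fun a ha => ?_⟩
      filter_upwards [bd_sharp (ε := (a - 1) / 2) (by linarith)] with n hn
      have : sInf {K | 1 ≤ K ∧ Bd n K} ≤ 1 + (a - 1) / 2 :=
        csInf_le ⟨1, fun _ h => h.1⟩ ⟨by linarith, hn⟩
      linarith
    simpa using this.add (tendsto_one_div_add_atTop_nhds_zero_nat (𝕜 := ℝ))
  · obtain ⟨K, hK, hlt⟩ := Real.lt_sInf_add_pos (hne n) (ε := 1 / ((n : ℝ) + 1)) (by positivity)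
    intro F hF hn c a ha
    obtain ⟨b, hb, hab⟩ := hK.2 F hF hn c a ha
    refine ⟨b, hb, hab.trans (mul_le_mul_of_nonneg_right hlt.le (mul_nonneg (by positivity)
      (Multiset.sum_nonneg fun x hx => ?_)))⟩
    obtain ⟨_, -, rfl⟩ := Multiset.mem_map.1 hx
    exact norm_nonneg _

end Pool.Agent.H.MP_0234e1_an
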